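import Pool.Agent.Work.MP_7eddf1_co.GL.Slopes

set_option autoImplicit false
open Finset Filter Topology

namespace Pool.Agent.Work.MP_7eddf1.GL

theorem others (i : Fin 3) : ∃ j k : Fin 3, i ≠ j ∧ i ≠ k ∧ j ≠ k := by
  fin_cases i
  · exact ⟨1, 2, by decide, by decide, by decide⟩
  · exact ⟨0, 2, by decide, by decide, by decide⟩
  · exact ⟨0, 1, by decide, by decide, by decide⟩

theorem thd {i j : Fin 3} (hij : i ≠ j) : ∃ k : Fin 3, i ≠ k ∧ j ≠ k := by
  fin_cases i <;> fin_cases j <;> first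
    | exact absurd rfl hij
    | exact ⟨0, by decide, by decide⟩
    | exact ⟨1, by decide, by decide⟩
    | exact ⟨2, by decide, by decide⟩

theorem prod3 {i j k : Fin 3} (hij : i ≠ j) (hik : i ≠ k) (hjk : j ≠ k) (x : Fin 3 → ℝ) :
    ∏ m, x m = x i * x j * x k := by
  rw [Fin.prod_univ_three]
  fin_cases i <;> fin_cases j <;> fin_cases k <;> first
    | exact absurd rfl hij
    | exact absurd rfl hik
    | exact absurd rfl hjk
    | (simp only [Fin.zero_eta, Fin.mk_one, Fin.reduceFinMk]; try ring)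

/-- the comparison function -/
noncomputable def gg (δ : ℝ) (x : Fin 3 → ℝ) : ℝ :=
  2 * Real.sqrt (∏ m, x m) + δ * ((∏ m, x m) - 1)

theorem gg_continuous (δ : ℝ) : Continuous (gg δ) := by
  unfold gg
  fun_prop

section
variable {ι : Type*} [Fintype ι] {R : Fin 3 → ι → ι → Prop} {u l z : Fin 3 → ι → ℝ} {p : ι → ℝ}

theorem EE_continuous (u l : Fin 3 → ι → ℝ) (p : ι → ℝ) : Continuous (EE u l p) := by
  unfold EE
  refine continuous_finsetSum _ fun t _ => continuous_const.mul (e3_continuous.comp ?_)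
  refine continuous_pi fun i => ?_
  exact (Fr_continuous _ _).comp (continuous_apply i)

theorem Bal.EE_nonneg (B : Bal R u l z p) (x : Fin 3 → ℝ) : 0 ≤ EE u l p x :=
  Finset.sum_nonneg fun t _ => mul_nonneg (B.p0 t)
    (e3_nonneg fun i => Fr_nonneg ((B.feas i).hl t) _)

theorem Bal.EE_one (B : Bal R u l z p) {x : Fin 3 → ℝ} (hx0 : ∀ i, 0 ≤ x i)
    (hx1 : ∀ i, x i ≤ 1) {i j k : Fin 3} (hij : i ≠ j) (hik : i ≠ k) (hjk : j ≠ k)
    (hi : x i = 1) : EE u l p x = x j + x k := by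
  rw [← B.uniform' j (hx0 j) (hx1 j), ← B.uniform' k (hx0 k) (hx1 k), ← Finset.sum_add_distrib]
  refine sum_congr rfl fun t _ => ?_
  by_cases hp : 0 < p t
  · have h1 : fr u l x t i = 1 := by
      unfold fr
      rw [hi]
      exact Fr_of_ge (B.lpos i t hp) ((B.feas i).h1 t)
    have h2 : ∀ m, fr u l x t m ≤ 1 := fun m => Fr_le_one (B.lpos m t hp) _
    rw [e3_eq (fr u l x t) hjk (Ne.symm hij) (Ne.symm hik) (by rw [h1]; exact h2 j)
      (by rw [h1]; exact h2 k)]
    unfold fr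
    ring
  · have h0 : p t = 0 := le_antisymm (not_lt.1 hp) (B.p0 t)
    simp [h0]

theorem le_of_ev {a b c : ℝ} (h : ∀ᶠ ε in 𝓝[>] (0 : ℝ), a - ε * c ≤ b) : a ≤ b := by
  have ht : Tendsto (fun ε : ℝ => a - ε * c) (𝓝[>] 0) (𝓝 a) := by
    have : Tendsto (fun ε : ℝ => a - ε * c) (𝓝 0) (𝓝 (a - 0 * c)) :=
      (continuous_const.sub (continuous_id.mul continuous_const)).tendsto 0
    rw [zero_mul, sub_zero] at this
    exact this.mono_left nhdsWithin_le_nhds
  exact le_of_tendsto ht h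

/-- first order condition, moving up -/
theorem Bal.up (B : Bal R u l z p) {δ : ℝ} {x : Fin 3 → ℝ} (hx0 : ∀ i, 0 < x i)
    (hx1 : ∀ i, x i < 1)
    (hmin : ∀ y : Fin 3 → ℝ, (∀ i, 0 ≤ y i) → (∀ i, y i ≤ 1) →
      EE u l p x - gg δ x ≤ EE u l p y - gg δ y) (i : Fin 3) :
    Real.sqrt (∏ m, x m) + δ * (∏ m, x m) ≤ x i * lS u l z p x i := by
  obtain ⟨j, k, hij, hik, hjk⟩ := others i
  have hP0 : 0 < ∏ m, x m := Finset.prod_pos fun m _ => hx0 m
  refine le_of_ev (c := Real.sqrt (∏ m, x m) / x i) ?_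
  filter_upwards [B.plus (x := x) i, Ioo_mem_nhdsGT (show (0 : ℝ) < 1 - x i by linarith [hx1 i])]
    with ε h1 hε
  have hε0 : 0 < ε := hε.1
  have hε1 : ε < 1 - x i := hε.2
  set x' : Fin 3 → ℝ := fun m => if m = i then x m + ε else x m with hx'
  have ei : x' i = x i + ε := by simp [hx']
  have eo : ∀ j, j ≠ i → x' j = x j := fun j hj => by simp [hx', hj]
  have hm := hmin x' (fun m => by
      by_cases hm : m = i
      · rw [hm, ei]
        linarith [hx0 i]
      · rw [eo m hm]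
        exact (hx0 m).le)
    (fun m => by
      by_cases hm : m = i
      · rw [hm, ei]
        linarith
      · rw [eo m hm]
        exact (hx1 m).le)
  have hxi := hx0 i
  have hprod : ∏ m, x' m = (∏ m, x m) * (1 + ε / x i) := by
    rw [prod3 hij hik hjk x', prod3 hij hik hjk x, ei, eo j (Ne.symm hij), eo k (Ne.symm hik)]
    field_simp
  have hs : Real.sqrt (∏ m, x' m) = Real.sqrt (∏ m, x m) * Real.sqrt (1 + ε / x i) := by
    rw [hprod, Real.sqrt_mul hP0.le]
  have ha : 0 < ε / x i := div_pos hε0 hxi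
  have hsq := sqrt_one_add_ge (a := ε / x i) (by linarith)
  unfold gg at hm
  rw [hs, hprod] at hm
  have hS0 : 0 < Real.sqrt (∏ m, x m) := Real.sqrt_pos.2 hP0
  have h2 := mul_le_mul_of_nonneg_left hsq hS0.le
  set S := Real.sqrt (∏ m, x m) with hSdef
  set P := ∏ m, x m with hPdef
  set a := ε / x i with hadef
  have hεa : ε = x i * a := by
    rw [hadef]
    field_simp
  have h3 : 2 * S * (a / 2 - a ^ 2 / 2) + δ * P * a ≤ ε * lS u l z p x i := by
    nlinarith
  have h4 : a * (S + δ * P - ε * (S / x i)) ≤ a * (x i * lS u l z p x i) := by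
    have e1 : a * (S + δ * P - ε * (S / x i)) = 2 * S * (a / 2 - a ^ 2 / 2) + δ * P * a := by
      rw [hadef]
      field_simp
      ring
    have e2 : a * (x i * lS u l z p x i) = ε * lS u l z p x i := by
      rw [hεa]
      ring
    rw [e1, e2]
    exact h3
  exact le_of_mul_le_mul_left h4 ha

/-- first order condition, moving down -/
theorem Bal.down (B : Bal R u l z p) {δ : ℝ} (hδ : 0 < δ) {x : Fin 3 → ℝ} (hx0 : ∀ i, 0 < x i)
    (hx1 : ∀ i, x i < 1)
    (hmin : ∀ y : Fin 3 → ℝ, (∀ i, 0 ≤ y i) → (∀ i, y i ≤ 1) →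
      EE u l p x - gg δ x ≤ EE u l p y - gg δ y) {i j k : Fin 3}
    (hij : i ≠ j) (hik : i ≠ k) (hjk : j ≠ k) (hc : ¬ Corner u l p x i j) :
    x i * (1 - hS u l z p x i) + x j * (1 - hS u l z p x j) <
      2 * (Real.sqrt (∏ m, x m) + δ * (∏ m, x m)) := by
  have hP0 : 0 < ∏ m, x m := Finset.prod_pos fun m _ => hx0 m
  obtain ⟨ε, h1, hε⟩ := ((B.minus hx0 hx1 hij hik hjk hc).and
    (Ioo_mem_nhdsGT (zero_lt_one (α := ℝ)))).exists
  have hε0 : 0 < ε := hε.1
  have hε1 : ε < 1 := hε.2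
  set x' : Fin 3 → ℝ := fun m => if m = k then x m else (1 - ε) * x m with hx'
  have ei : x' i = (1 - ε) * x i := by simp [hx', hik]
  have ej : x' j = (1 - ε) * x j := by simp [hx', hjk]
  have ek : x' k = x k := by simp [hx']
  have hm := hmin x' (fun m => by
      rcases third hij hik hjk m with rfl | rfl | rfl
      · rw [ei]
        exact mul_nonneg (by linarith) (hx0 _).le
      · rw [ej]
        exact mul_nonneg (by linarith) (hx0 _).le
      · rw [ek]
        exact (hx0 _).le)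
    (fun m => by
      rcases third hij hik hjk m with rfl | rfl | rfl
      · rw [ei]
        nlinarith [hx0 m, hx1 m]
      · rw [ej]
        nlinarith [hx0 m, hx1 m]
      · rw [ek]
        exact (hx1 _).le)
  have hprod : ∏ m, x' m = (∏ m, x m) * (1 - ε) ^ 2 := by
    rw [prod3 hij hik hjk x', prod3 hij hik hjk x, ei, ej, ek]
    ring
  have hs : Real.sqrt (∏ m, x' m) = Real.sqrt (∏ m, x m) * (1 - ε) := by
    rw [hprod, Real.sqrt_mul hP0.le, Real.sqrt_sq (by linarith)]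
  unfold gg at hm
  rw [hs, hprod] at hm
  set S := Real.sqrt (∏ m, x m) with hSdef
  set P := ∏ m, x m with hPdef
  set A := x i * (1 - hS u l z p x i) + x j * (1 - hS u l z p x j) with hA
  have h2 : ε * A ≤ 2 * S * ε + δ * P * (2 * ε - ε ^ 2) := by
    have e : ε * A = ε * (x i * (1 - hS u l z p x i)) + ε * (x j * (1 - hS u l z p x j)) := by
      rw [hA]
      ring
    rw [e]
    linarith
  have h3 : ε * A < ε * (2 * (S + δ * P)) := by
    have : 0 < δ * P * ε ^ 2 := by positivity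
    linarith
  exact lt_of_mul_lt_mul_left h3 hε0.le

theorem Bal.pair (B : Bal R u l z p) (htr : ∀ i r s t, R i r s → R i s t → R i r t)
    {δ : ℝ} (hδ : 0 < δ) {x : Fin 3 → ℝ} (hx0 : ∀ i, 0 < x i)
    (hx1 : ∀ i, x i < 1)
    (hmin : ∀ y : Fin 3 → ℝ, (∀ i, 0 ≤ y i) → (∀ i, y i ≤ 1) →
      EE u l p x - gg δ x ≤ EE u l p y - gg δ y) {i j : Fin 3}
    (hij : i ≠ j) : Wall R u l p x i ∨ Wall R u l p x j ∨ Corner u l p x i j := by
  by_contra hcon
  push Not at hcon
  obtain ⟨hwi, hwj, hc⟩ := hcon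
  obtain ⟨k, hik, hjk⟩ := thd hij
  have h1 := B.down hδ hx0 hx1 hmin hij hik hjk hc
  have h2 := B.up hx0 hx1 hmin i
  have h3 := B.up hx0 hx1 hmin j
  have h4 := B.wall_sum (htr i) hwi
  have h5 := B.wall_sum (htr j) hwj
  have h6 : x i * lS u l z p x i ≤ x i * (1 - hS u l z p x i) :=
    mul_le_mul_of_nonneg_left (by linarith) (hx0 i).le
  have h7 : x j * lS u l z p x j ≤ x j * (1 - hS u l z p x j) :=
    mul_le_mul_of_nonneg_left (by linarith) (hx0 j).le
  linarith

end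

section
variable {m : ℕ} {R : Fin 3 → Fin m → Fin m → Prop} {u l z : Fin 3 → Fin m → ℝ} {p : Fin m → ℝ}

theorem Bal.wall_data (B : Bal R u l z p) (hlt : ∀ i s t, R i s t → s < t)
    {x : Fin 3 → ℝ} {i : Fin 3} (hw : Wall R u l p x i) :
    ∃ a b : Fin m, 0 < p a ∧ 0 < p b ∧ a < b ∧ x i = u i a + l i a ∧ x i = u i b ∧
      (∀ k, k ≠ i → x k < u k a + l k a) ∧ ∃ k, k ≠ i ∧ u k b < x k := by
  obtain ⟨a, b, hpa, hpb, hab, ⟨⟨h1, h2⟩, h3⟩, ⟨⟨h4, h5⟩, k, hk, h6⟩⟩ := hw
  have h7 := (B.feas i).hR a b hab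
  refine ⟨a, b, hpa, hpb, hlt i a b hab, le_antisymm h2 (h7.trans h4), le_antisymm (h2.trans h7) h4,
    fun k hk => ?_, k, hk, ?_⟩
  · exact lt_of_Fr_lt_one (B.lpos k a hpa) (lt_of_lt_of_le (h3 k hk) (Fr_le_one (B.lpos i a hpa) _))
  · exact lt_of_Fr_pos (B.lpos k b hpb) (lt_of_le_of_lt (Fr_nonneg ((B.feas i).hl b) _) h6)

/-- Lemma X -/
theorem Bal.after (B : Bal R u l z p)
    (hR2 : ∀ s t : Fin m, s < t → ∀ i j : Fin 3, i ≠ j → R i s t ∨ R j s t)
    {x : Fin 3 → ℝ} {i : Fin 3} {b t : Fin m} (hb : x i = u i b) {k : Fin 3} (hk : k ≠ i)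
    (hkb : u k b < x k) (h1 : x i < u i t + l i t) (h2 : x k ≤ u k t + l k t) : b ≤ t := by
  by_contra hcon
  push Not at hcon
  rcases hR2 t b hcon i k (Ne.symm hk) with h | h
  · have := (B.feas i).hR t b h
    linarith
  · have := (B.feas k).hR t b h
    linarith

theorem Bal.no_two_walls (B : Bal R u l z p) (hlt : ∀ i s t, R i s t → s < t)
    (hR2 : ∀ s t : Fin m, s < t → ∀ i j : Fin 3, i ≠ j → R i s t ∨ R j s t)
    {x : Fin 3 → ℝ} {i j : Fin 3} (hij : i ≠ j) (hi : Wall R u l p x i)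
    (hj : Wall R u l p x j) : False := by
  obtain ⟨a, b, hpa, hpb, hab, h1, h2, h3, k, hk, h4⟩ := B.wall_data hlt hi
  obtain ⟨a', b', hpa', hpb', hab', h1', h2', h3', k', hk', h4'⟩ := B.wall_data hlt hj
  have e1 : b ≤ a' := by
    refine B.after hR2 h2 hk h4 (h3' i hij) ?_
    by_cases hkj : k = j
    · rw [hkj]
      exact h1'.le
    · exact (h3' k hkj).le
  have e2 : b' ≤ a := by
    refine B.after hR2 h2' hk' h4' (h3 j (Ne.symm hij)) ?_
    by_cases hki : k' = i
    · rw [hki]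
      exact h1.le
    · exact (h3 k' hki).le
  exact absurd (((hab.trans_le e1).trans hab').trans_le e2) (lt_irrefl a)

theorem Bal.no_wall_corner (B : Bal R u l z p) (hlt : ∀ i s t, R i s t → s < t)
    (hR2 : ∀ s t : Fin m, s < t → ∀ i j : Fin 3, i ≠ j → R i s t ∨ R j s t)
    {x : Fin 3 → ℝ} {i j k : Fin 3} (hij : i ≠ j) (hik : i ≠ k) (hjk : j ≠ k)
    (hi : Wall R u l p x i) (hc : Corner u l p x j k) : False := by
  obtain ⟨a, b, hpa, hpb, hab, h1, h2, h3, q, hq, h4⟩ := B.wall_data hlt hi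
  obtain ⟨t, hpt, ⟨c1, c2⟩, ⟨c3, c4⟩, c5, c6⟩ := hc
  have h5 : x i < u i t + l i t :=
    lt_of_Fr_lt_one (B.lpos i t hpt) (lt_of_lt_of_le (c6 i hij hik) (Fr_le_one (B.lpos j t hpt) _))
  have h6 : b ≤ t := by
    refine B.after hR2 h2 hq h4 h5 ?_
    rcases third hij hik hjk q with rfl | rfl | rfl
    · exact absurd rfl hq
    · exact c2
    · exact c4
  have h7 : a < t := hab.trans_le h6
  rcases hR2 a t h7 j k hjk with h | h
  · have := (B.feas j).hR a t h
    have := h3 j (Ne.symm hij)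
    linarith
  · have := (B.feas k).hR a t h
    have := h3 k (Ne.symm hik)
    linarith

theorem Bal.no_two_corners (B : Bal R u l z p)
    (hR2 : ∀ s t : Fin m, s < t → ∀ i j : Fin 3, i ≠ j → R i s t ∨ R j s t)
    {x : Fin 3 → ℝ} {i j k : Fin 3} (hij : i ≠ j) (hik : i ≠ k) (hjk : j ≠ k)
    (hc : Corner u l p x i j) (hc' : Corner u l p x i k) : False := by
  obtain ⟨t, hpt, ⟨c1, c2⟩, ⟨c3, c4⟩, c5, c6⟩ := hc
  obtain ⟨t', hpt', ⟨d1, d2⟩, ⟨d3, d4⟩, d5, d6⟩ := hc'
  have hk : x k < u k t + l k t :=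
    lt_of_Fr_lt_one (B.lpos k t hpt)
      (lt_of_lt_of_le (c6 k (Ne.symm hik) (Ne.symm hjk)) (Fr_le_one (B.lpos i t hpt) _))
  have hj : x j < u j t' + l j t' :=
    lt_of_Fr_lt_one (B.lpos j t' hpt')
      (lt_of_lt_of_le (d6 j (Ne.symm hij) hjk) (Fr_le_one (B.lpos i t' hpt') _))
  rcases lt_trichotomy t t' with h | h | h
  · rcases hR2 t t' h i k hik with h' | h'
    · have := (B.feas i).hR t t' h'
      linarith
    · have := (B.feas k).hR t t' h'
      linarith
  · subst h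
    have e1 := c6 k (Ne.symm hik) (Ne.symm hjk)
    linarith
  · rcases hR2 t' t h i j hij with h' | h'
    · have := (B.feas i).hR t' t h'
      linarith
    · have := (B.feas j).hR t' t h'
      linarith

/-- the main inequality -/
theorem Bal.main (B : Bal R u l z p) (htr : ∀ i r s t, R i r s → R i s t → R i r t)
    (hlt : ∀ i s t, R i s t → s < t)
    (hR2 : ∀ s t : Fin m, s < t → ∀ i j : Fin 3, i ≠ j → R i s t ∨ R j s t)
    {δ : ℝ} (hδ : 0 < δ) {y : Fin 3 → ℝ} (hy0 : ∀ i, 0 ≤ y i) (hy1 : ∀ i, y i ≤ 1) :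
    gg δ y ≤ EE u l p y := by
  have hcont : Continuous (fun x : Fin 3 → ℝ => EE u l p x - gg δ x) :=
    (EE_continuous u l p).sub (gg_continuous δ)
  obtain ⟨x, hx, hmin⟩ := (isCompact_Icc (a := (0 : Fin 3 → ℝ)) (b := 1)).exists_isMinOn
    ⟨y, fun i => hy0 i, fun i => hy1 i⟩ hcont.continuousOn
  have hmin' : ∀ y : Fin 3 → ℝ, (∀ i, 0 ≤ y i) → (∀ i, y i ≤ 1) →
      EE u l p x - gg δ x ≤ EE u l p y - gg δ y := fun y h0 h1 =>
    hmin (show y ∈ Set.Icc (0 : Fin 3 → ℝ) 1 from ⟨fun i => h0 i, fun i => h1 i⟩)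
  have hx0 : ∀ i, 0 ≤ x i := fun i => hx.1 i
  have hx1 : ∀ i, x i ≤ 1 := fun i => hx.2 i
  suffices h : 0 ≤ EE u l p x - gg δ x by
    have := hmin' y hy0 hy1
    linarith
  by_contra hneg
  push Not at hneg
  have hpos : ∀ i, 0 < x i := by
    intro i
    refine lt_of_le_of_ne (hx0 i) fun h => ?_
    have hP : ∏ m, x m = 0 := Finset.prod_eq_zero (Finset.mem_univ i) h.symm
    have h1 : gg δ x = -δ := by
      unfold gg
      rw [hP, Real.sqrt_zero]
      ring
    have h2 := B.EE_nonneg x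
    linarith
  have hlt1 : ∀ i, x i < 1 := by
    intro i
    refine lt_of_le_of_ne (hx1 i) fun h => ?_
    obtain ⟨j, k, hij, hik, hjk⟩ := others i
    have h1 := B.EE_one hx0 hx1 hij hik hjk h
    have hP : ∏ m, x m = x j * x k := by
      rw [prod3 hij hik hjk x, h, one_mul]
    have hP1 : ∏ m, x m ≤ 1 := by
      rw [hP]
      exact mul_le_one₀ (hx1 j) (hx0 k) (hx1 k)
    have h2 : 2 * Real.sqrt (x j * x k) ≤ x j + x k := by
      rw [Real.sqrt_mul (hx0 j)]
      nlinarith [sq_nonneg (Real.sqrt (x j) - Real.sqrt (x k)), Real.sq_sqrt (hx0 j),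
        Real.sq_sqrt (hx0 k)]
    have h3 : gg δ x ≤ x j + x k := by
      unfold gg
      have : δ * ((∏ m, x m) - 1) ≤ 0 := by nlinarith
      rw [← hP] at h2
      linarith
    linarith
  have hpair : ∀ i j : Fin 3, i ≠ j → Wall R u l p x i ∨ Wall R u l p x j ∨ Corner u l p x i j :=
    fun i j hij => B.pair htr hδ hpos hlt1 hmin' hij
  by_cases hw : ∃ i, Wall R u l p x i
  · obtain ⟨i, hi⟩ := hw
    obtain ⟨j, k, hij, hik, hjk⟩ := others i
    rcases hpair j k hjk with h | h | h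
    · exact B.no_two_walls hlt hR2 hij hi h
    · exact B.no_two_walls hlt hR2 hik hi h
    · exact B.no_wall_corner hlt hR2 hij hik hjk hi h
  · push Not at hw
    have h1 : Corner u l p x 0 1 := by
      rcases hpair 0 1 (by decide) with h | h | h
      · exact absurd h (hw 0)
      · exact absurd h (hw 1)
      · exact h
    have h2 : Corner u l p x 0 2 := by
      rcases hpair 0 2 (by decide) with h | h | h
      · exact absurd h (hw 0)
      · exact absurd h (hw 2)
      · exact h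
    exact B.no_two_corners hR2 (by decide) (by decide) (by decide) h1 h2

theorem Bal.main' (B : Bal R u l z p) (htr : ∀ i r s t, R i r s → R i s t → R i r t)
    (hlt : ∀ i s t, R i s t → s < t)
    (hR2 : ∀ s t : Fin m, s < t → ∀ i j : Fin 3, i ≠ j → R i s t ∨ R j s t)
    {y : Fin 3 → ℝ} (hy0 : ∀ i, 0 ≤ y i) (hy1 : ∀ i, y i ≤ 1) :
    2 * Real.sqrt (∏ m, y m) ≤ EE u l p y := by
  refine le_of_ev (c := 1 - ∏ m, y m) ?_
  filter_upwards [self_mem_nhdsWithin] with δ hδ
  have h := B.main htr hlt hR2 (show 0 < δ from hδ) hy0 hy1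
  unfold gg at h
  linarith

/-- the mass of the first box is at least the square root of its volume -/
theorem Bal.first (B : Bal R u l z p) (htr : ∀ i r s t, R i r s → R i s t → R i r t)
    (hlt : ∀ i s t, R i s t → s < t)
    (hR2 : ∀ s t : Fin m, s < t → ∀ i j : Fin 3, i ≠ j → R i s t ∨ R j s t)
    {t₀ : Fin m} (h0 : ∀ t, t < t₀ → p t = 0) (hp : 0 < p t₀) :
    Real.sqrt (∏ i, l i t₀) ≤ p t₀ := by
  set y : Fin 3 → ℝ := fun i => u i t₀ + l i t₀ with hy
  have hy0 : ∀ i, 0 ≤ y i := fun i => add_nonneg ((B.feas i).hu t₀) ((B.feas i).hl t₀)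
  have h1 := B.main' htr hlt hR2 hy0 (fun i => (B.feas i).h1 t₀)
  have h2 : EE u l p y ≤ 2 * p t₀ := by
    unfold EE
    have hle : ∀ t, p t * e3 (fr u l y t) ≤ if t = t₀ then 2 * p t₀ else 0 := by
      intro t
      rcases lt_trichotomy t t₀ with h | h | h
      · rw [h0 t h, if_neg h.ne, zero_mul]
      · subst h
        rw [if_pos rfl]
        have e1 := e3_le (fr u l y t) (show (0 : Fin 3) ≠ 1 by decide)
        have e2 : fr u l y t 0 ≤ 1 := Fr_le_one (B.lpos 0 t hp) _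
        have e3' : fr u l y t 1 ≤ 1 := Fr_le_one (B.lpos 1 t hp) _
        nlinarith
      · rw [if_neg h.ne']
        have key : ∃ i j : Fin 3, i ≠ j ∧ R i t₀ t ∧ R j t₀ t := by
          rcases hR2 t₀ t h 0 1 (by decide) with a | a
          · rcases hR2 t₀ t h 1 2 (by decide) with b | b
            · exact ⟨0, 1, by decide, a, b⟩
            · exact ⟨0, 2, by decide, a, b⟩
          · rcases hR2 t₀ t h 0 2 (by decide) with b | b
            · exact ⟨1, 0, by decide, a, b⟩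
            · exact ⟨1, 2, by decide, a, b⟩
        obtain ⟨i, j, hij, hi, hj⟩ := key
        have e1 := e3_le (fr u l y t) hij
        have e2 : fr u l y t i = 0 := Fr_of_le ((B.feas i).hl t) ((B.feas i).hR t₀ t hi)
        have e3' : fr u l y t j = 0 := Fr_of_le ((B.feas j).hl t) ((B.feas j).hR t₀ t hj)
        rw [e2, e3', add_zero] at e1
        exact mul_nonpos_of_nonneg_of_nonpos (B.p0 t) e1
    refine (Finset.sum_le_sum fun t _ => hle t).trans ?_
    simp
  have h3 : Real.sqrt (∏ i, l i t₀) ≤ Real.sqrt (∏ m, y m) := by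
    refine Real.sqrt_le_sqrt (Finset.prod_le_prod (fun i _ => (B.feas i).hl t₀) fun i _ => ?_)
    have := (B.feas i).hu t₀
    show l i t₀ ≤ u i t₀ + l i t₀
    linarith
  linarith

end

/-- the sum of the square roots of the volumes of the boxes is at most one. -/
theorem J_le_one {m : ℕ} {R : Fin 3 → Fin m → Fin m → Prop}
    (htr : ∀ i r s t, R i r s → R i s t → R i r t)
    (hlt : ∀ i s t, R i s t → s < t)
    (hR2 : ∀ s t : Fin m, s < t → ∀ i j : Fin 3, i ≠ j → R i s t ∨ R j s t)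
    {u' l' : Fin 3 → Fin m → ℝ} (hf' : ∀ i, Feas (R i) (u' i) (l' i)) : J l' ≤ 1 := by
  obtain ⟨u, l, hf, hmax⟩ := exists_max R
  refine (hmax u' l' hf').trans ?_
  by_contra hcon
  push Not at hcon
  have hJ : 0 < J l := lt_trans one_pos hcon
  have B := Bal.of_max hf hmax hJ
  classical
  have hne : (univ.filter fun t : Fin m => 0 < Real.sqrt (∏ j, l j t) / J l).Nonempty := by
    by_contra h
    rw [Finset.not_nonempty_iff_eq_empty, Finset.filter_eq_empty_iff] at h
    have h1 := B.psum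
    have h2 : ∑ t, Real.sqrt (∏ j, l j t) / J l ≤ 0 :=
      Finset.sum_nonpos fun t ht => not_lt.1 (h ht)
    linarith
  obtain ⟨t₀, ht₀, hleast⟩ := Finset.exists_minimal hne
  rw [Finset.mem_filter] at ht₀
  have h1 := B.first htr hlt hR2 (t₀ := t₀) (fun t ht => ?_) ht₀.2
  · have hs : 0 < Real.sqrt (∏ j, l j t₀) := by
      by_contra h
      have h3 : Real.sqrt (∏ j, l j t₀) = 0 := le_antisymm (not_lt.1 h) (Real.sqrt_nonneg _)
      have h2 := ht₀.2
      rw [h3, zero_div] at h2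
      exact lt_irrefl _ h2
    rw [le_div_iff₀ hJ] at h1
    nlinarith
  · by_contra hne0
    have hpt : 0 < Real.sqrt (∏ j, l j t) / J l := lt_of_le_of_ne (B.p0 t) (Ne.symm hne0)
    have := hleast (Finset.mem_filter.2 ⟨Finset.mem_univ t, hpt⟩) ht.le
    exact absurd ht (not_lt.2 this)

end Pool.Agent.Work.MP_7eddf1.GL
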