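import Pool.Agent.Work.MP_7eddf1_co.GL.Var

set_option autoImplicit false
open Finset

namespace Pool.Agent.Work.MP_7eddf1.GL

variable {ι : Type*} [Fintype ι]

/-- a balanced box system: the output of the optimisation. -/
structure Bal (R : Fin 3 → ι → ι → Prop) (u l z : Fin 3 → ι → ℝ) (p : ι → ℝ) : Prop where
  feas : ∀ i, Feas (R i) (u i) (l i)
  p0 : ∀ t, 0 ≤ p t
  psum : ∑ t, p t = 1
  z0 : ∀ i t, 0 ≤ z i t
  zl : ∀ i t, z i t * l i t = p t
  lpos : ∀ i t, 0 < p t → 0 < l i t
  vi : ∀ (i : Fin 3) (u' l' : ι → ℝ), Feas (R i) u' l' → ∑ t, z i t * l' t ≤ 1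

theorem Bal.of_max {R : Fin 3 → ι → ι → Prop} {u l : Fin 3 → ι → ℝ}
    (hf : ∀ i, Feas (R i) (u i) (l i))
    (hmax : ∀ u' l' : Fin 3 → ι → ℝ, (∀ i, Feas (R i) (u' i) (l' i)) → J l' ≤ J l)
    (hJ : 0 < J l) :
    Bal R u l (fun i t => Real.sqrt (∏ j, l j t) / J l / l i t)
      (fun t => Real.sqrt (∏ j, l j t) / J l) := by
  have hprod : ∀ i t, l i t = 0 → ∏ j, l j t = 0 := fun i t h =>
    Finset.prod_eq_zero (Finset.mem_univ i) h
  refine ⟨hf, fun t => div_nonneg (Real.sqrt_nonneg _) hJ.le, ?_,
    fun i t => div_nonneg (div_nonneg (Real.sqrt_nonneg _) hJ.le) ((hf i).hl t),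
    fun i t => ?_, fun i t hp => ?_, fun i u' l' h' => ?_⟩
  · rw [← Finset.sum_div]
    exact div_self hJ.ne'
  · by_cases h : l i t = 0
    · simp [h, hprod i t h]
    · exact div_mul_cancel₀ _ h
  · refine lt_of_le_of_ne ((hf i).hl t) fun h => ?_
    simp [hprod i t h.symm] at hp
  · have h := variational hf hmax i u' l' h'
    have e : ∑ t, Real.sqrt (∏ j, l j t) / J l / l i t * l' t =
        (∑ t, Real.sqrt (∏ j, l j t) * (l' t / l i t)) / J l := by
      rw [Finset.sum_div]
      refine sum_congr rfl fun t _ => ?_
      ring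
    rw [e, div_le_one hJ]
    exact h

variable {R : Fin 3 → ι → ι → Prop} {u l z : Fin 3 → ι → ℝ} {p : ι → ℝ}

theorem Bal.uniform (B : Bal R u l z p) (i : Fin 3) {x : ℝ} (hx0 : 0 ≤ x) (hx1 : x ≤ 1) :
    ∑ t, z i t * (min (u i t + l i t) x - min (u i t) x) = x := by
  have hf := B.feas i
  have hone : ∑ t, z i t * l i t = 1 := by
    rw [← B.psum]
    exact sum_congr rfl fun t _ => B.zl i t
  have hul : ∀ t, u i t ≤ u i t + l i t := fun t => by linarith [hf.hl t]
  have A : ∑ t, z i t * (min (u i t + l i t) x - min (u i t) x) ≤ x := by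
    rcases hx0.eq_or_lt with h0 | h0
    · rw [← h0]
      refine le_of_eq (sum_eq_zero fun t _ => ?_)
      have h1 := hf.hu t
      have h2 := hf.hl t
      rw [min_eq_right (by linarith), min_eq_right h1]
      ring
    · have h := B.vi i (fun t => min (u i t) x / x)
        (fun t => (min (u i t + l i t) x - min (u i t) x) / x)
        ⟨fun t => div_nonneg (le_min (hf.hu t) hx0) hx0,
         fun t => div_nonneg (sub_nonneg.2 (min_le_min_right _ (hul t))) hx0,
         fun t => by
          rw [← add_div, div_le_one h0]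
          have := min_le_right (u i t + l i t) x
          linarith,
         fun s t hst => by
          rw [← add_div]
          refine div_le_div_of_nonneg_right ?_ hx0
          have := min_le_min_right x (hf.hR s t hst)
          linarith⟩
      have e : ∑ t, z i t * ((min (u i t + l i t) x - min (u i t) x) / x) =
          (∑ t, z i t * (min (u i t + l i t) x - min (u i t) x)) / x := by
        rw [Finset.sum_div]
        exact sum_congr rfl fun t _ => by ring
      rw [e, div_le_one h0] at h
      exact h
  have C : ∑ t, z i t * (max (u i t + l i t) x - max (u i t) x) ≤ 1 - x := by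
    rcases hx1.eq_or_lt with h0 | h0
    · rw [h0]
      refine le_of_eq ?_
      rw [sub_self]
      refine sum_eq_zero fun t _ => ?_
      have h1 := hf.h1 t
      have h2 := hf.hl t
      rw [max_eq_right h1, max_eq_right (by linarith)]
      ring
    · have hy : 0 < 1 - x := by linarith
      have h := B.vi i (fun t => (max (u i t) x - x) / (1 - x))
        (fun t => (max (u i t + l i t) x - max (u i t) x) / (1 - x))
        ⟨fun t => div_nonneg (sub_nonneg.2 (le_max_right _ _)) hy.le,
         fun t => div_nonneg (sub_nonneg.2 (max_le_max_right _ (hul t))) hy.le,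
         fun t => by
          rw [← add_div, div_le_one hy]
          have := max_le (hf.h1 t) hx1
          linarith,
         fun s t hst => by
          rw [← add_div]
          refine div_le_div_of_nonneg_right ?_ hy.le
          have := max_le_max_right x (hf.hR s t hst)
          linarith⟩
      have e : ∑ t, z i t * ((max (u i t + l i t) x - max (u i t) x) / (1 - x)) =
          (∑ t, z i t * (max (u i t + l i t) x - max (u i t) x)) / (1 - x) := by
        rw [Finset.sum_div]
        exact sum_congr rfl fun t _ => by ring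
      rw [e, div_le_one hy] at h
      exact h
  have D : ∑ t, z i t * (min (u i t + l i t) x - min (u i t) x) +
      ∑ t, z i t * (max (u i t + l i t) x - max (u i t) x) = 1 := by
    rw [← Finset.sum_add_distrib, ← hone]
    refine sum_congr rfl fun t _ => ?_
    have h1 := min_add_max (u i t + l i t) x
    have h2 := min_add_max (u i t) x
    rw [← mul_add]
    congr 1
    linarith
  linarith

theorem Bal.antichain (B : Bal R u l z p) (i : Fin 3)
    (htr : ∀ r s t, R i r s → R i s t → R i r t) (C : Finset ι)
    (hC : ∀ s ∈ C, ∀ t ∈ C, ¬ R i s t) : ∑ t ∈ C, z i t ≤ 1 := by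
  classical
  have h := B.vi i (fun t => if ∃ a ∈ C, R i a t then 1 else 0) (fun t => if t ∈ C then 1 else 0)
    ⟨fun t => by split_ifs <;> norm_num, fun t => by split_ifs <;> norm_num,
     fun t => by
      by_cases h1 : ∃ a ∈ C, R i a t
      · have h2 : t ∉ C := by
          intro h2
          obtain ⟨a, ha, hr⟩ := h1
          exact hC a ha t h2 hr
        simp [h1, h2]
      · simp only [h1, if_false]
        split_ifs <;> norm_num,
     fun s t hst => by
      by_cases h1 : ∃ a ∈ C, R i a t
      · simp only [h1, if_true]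
        by_cases h2 : ∃ a ∈ C, R i a s
        · have h3 : s ∉ C := by
            intro h3
            obtain ⟨a, ha, hr⟩ := h2
            exact hC a ha s h3 hr
          simp [h2, h3]
        · simp only [h2, if_false]
          split_ifs <;> norm_num
      · have h2 : ¬ ∃ a ∈ C, R i a s := by
          rintro ⟨a, ha, hr⟩
          exact h1 ⟨a, ha, htr _ _ _ hr hst⟩
        have h3 : s ∉ C := fun h3 => h1 ⟨s, h3, hst⟩
        simp [h1, h2, h3]⟩
  have e : ∑ t, z i t * (if t ∈ C then (1 : ℝ) else 0) = ∑ t ∈ C, z i t := by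
    simp [Finset.sum_ite_mem]
  rw [e] at h
  exact h

end Pool.Agent.Work.MP_7eddf1.GL
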