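import Mathlib

set_option autoImplicit false
open Finset Filter Topology

namespace Pool.Agent.Work.MP_7eddf1.GL

/-- the length of `[u, u+l] ∩ (-∞, x]`. -/
noncomputable def wd (u l x : ℝ) : ℝ := min (u + l) x - min u x

/-- the proportion of `[u, u+l]` lying left of `x`. -/
noncomputable def Fr (u l x : ℝ) : ℝ := wd u l x / l

theorem wd_nonneg {u l : ℝ} (hl : 0 ≤ l) (x : ℝ) : 0 ≤ wd u l x :=
  sub_nonneg.2 (min_le_min_right _ (by linarith))

theorem wd_of_le {u l x : ℝ} (hl : 0 ≤ l) (h : x ≤ u) : wd u l x = 0 := by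
  unfold wd
  rw [min_eq_right (by linarith), min_eq_right h, sub_self]

theorem wd_of_ge {u l x : ℝ} (hl : 0 ≤ l) (h : u + l ≤ x) : wd u l x = l := by
  unfold wd
  rw [min_eq_left h, min_eq_left (by linarith)]
  ring

theorem wd_le {u l : ℝ} (hl : 0 ≤ l) (x : ℝ) : wd u l x ≤ l := by
  unfold wd
  rcases le_total u x with h | h
  · rw [min_eq_left h]
    have := min_le_left (u + l) x
    linarith
  · rw [min_eq_right h, min_eq_right (by linarith)]
    linarith

theorem wd_of_mid {u l x : ℝ} (h : u ≤ x) (h' : x ≤ u + l) : wd u l x = x - u := by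
  unfold wd
  rw [min_eq_right h', min_eq_left h]

theorem wd_mono {u l : ℝ} (hl : 0 ≤ l) {x y : ℝ} (h : x ≤ y) : wd u l x ≤ wd u l y := by
  rcases le_total y u with h1 | h1
  · rw [wd_of_le hl (h.trans h1), wd_of_le hl h1]
  · rcases le_total (u + l) x with h2 | h2
    · rw [wd_of_ge hl h2, wd_of_ge hl (h2.trans h)]
    · rcases le_total x u with h3 | h3
      · rw [wd_of_le hl h3]
        exact wd_nonneg hl y
      · rw [wd_of_mid h3 h2]
        rcases le_total y (u + l) with h4 | h4
        · rw [wd_of_mid h1 h4]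
          linarith
        · rw [wd_of_ge hl h4]
          linarith

theorem wd_lip {u l : ℝ} (hl : 0 ≤ l) {x y : ℝ} (h : x ≤ y) : wd u l y - wd u l x ≤ y - x := by
  unfold wd
  have h1 : min (u + l) y - min (u + l) x ≤ y - x := by
    rcases le_total (u + l) x with h2 | h2
    · rw [min_eq_left h2, min_eq_left (h2.trans h)]
      linarith
    · rw [min_eq_right h2]
      have := min_le_right (u + l) y
      linarith
  have h2 : min u x ≤ min u y := min_le_min_left _ h
  linarith

theorem Fr_nonneg {u l : ℝ} (hl : 0 ≤ l) (x : ℝ) : 0 ≤ Fr u l x :=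
  div_nonneg (wd_nonneg hl x) hl

theorem Fr_le_one {u l : ℝ} (hl : 0 < l) (x : ℝ) : Fr u l x ≤ 1 :=
  (div_le_one hl).2 (wd_le hl.le x)

theorem Fr_of_le {u l x : ℝ} (hl : 0 ≤ l) (h : x ≤ u) : Fr u l x = 0 := by
  unfold Fr
  rw [wd_of_le hl h, zero_div]

theorem Fr_of_ge {u l x : ℝ} (hl : 0 < l) (h : u + l ≤ x) : Fr u l x = 1 := by
  unfold Fr
  rw [wd_of_ge hl.le h, div_self hl.ne']

theorem lt_of_Fr_lt_one {u l x : ℝ} (hl : 0 < l) (h : Fr u l x < 1) : x < u + l := by
  by_contra hcon
  rw [Fr_of_ge hl (not_lt.1 hcon)] at h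
  exact lt_irrefl _ h

theorem lt_of_Fr_pos {u l x : ℝ} (hl : 0 < l) (h : 0 < Fr u l x) : u < x := by
  by_contra hcon
  rw [Fr_of_le hl.le (not_lt.1 hcon)] at h
  exact lt_irrefl _ h

theorem Fr_continuous (u l : ℝ) : Continuous (Fr u l) := by
  unfold Fr wd
  fun_prop

theorem ev_minus {u l x : ℝ} (hl : 0 < l) (hx : 0 ≤ x) :
    ∀ᶠ ε in 𝓝[>] (0 : ℝ), ¬ (u < x ∧ x ≤ u + l) → Fr u l ((1 - ε) * x) = Fr u l x := by
  rcases le_or_gt x u with h | h
  · filter_upwards [self_mem_nhdsWithin] with ε hε _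
    have h0 : (0 : ℝ) < ε := hε
    rw [Fr_of_le hl.le h, Fr_of_le hl.le]
    nlinarith
  · rcases lt_or_ge (u + l) x with h' | h'
    · have ht : Tendsto (fun ε : ℝ => (1 - ε) * x) (𝓝[>] 0) (𝓝 x) := by
        have : Tendsto (fun ε : ℝ => (1 - ε) * x) (𝓝 0) (𝓝 ((1 - 0) * x)) :=
          ((continuous_const.sub continuous_id).mul continuous_const).tendsto 0
        rw [sub_zero, one_mul] at this
        exact this.mono_left nhdsWithin_le_nhds
      filter_upwards [ht.eventually_const_lt h'] with ε hε _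
      rw [Fr_of_ge hl h'.le, Fr_of_ge hl hε.le]
    · exact Eventually.of_forall fun ε hn => absurd ⟨h, h'⟩ hn

theorem ev_plus {u l x : ℝ} (hl : 0 < l) :
    ∀ᶠ ε in 𝓝[>] (0 : ℝ), ¬ (u ≤ x ∧ x < u + l) → Fr u l (x + ε) = Fr u l x := by
  rcases le_or_gt (u + l) x with h | h
  · filter_upwards [self_mem_nhdsWithin] with ε hε _
    have h0 : (0 : ℝ) < ε := hε
    rw [Fr_of_ge hl h, Fr_of_ge hl (by linarith)]
  · rcases lt_or_ge x u with h' | h'
    · have ht : Tendsto (fun ε : ℝ => x + ε) (𝓝[>] 0) (𝓝 x) := by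
        have : Tendsto (fun ε : ℝ => x + ε) (𝓝 0) (𝓝 (x + 0)) :=
          (continuous_const.add continuous_id).tendsto 0
        rw [add_zero] at this
        exact this.mono_left nhdsWithin_le_nhds
      filter_upwards [ht.eventually_lt_const h'] with ε hε _
      rw [Fr_of_le hl.le h'.le, Fr_of_le hl.le hε.le]
    · exact Eventually.of_forall fun ε hn => absurd ⟨h', h⟩ hn

/-- the sum of the two smallest of three numbers. -/
noncomputable def e3 (a : Fin 3 → ℝ) : ℝ := min (a 0 + a 1) (min (a 0 + a 2) (a 1 + a 2))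

theorem e3_le (a : Fin 3 → ℝ) {i j : Fin 3} (h : i ≠ j) : e3 a ≤ a i + a j := by
  have h1 : e3 a ≤ a 0 + a 1 := min_le_left _ _
  have h2 : e3 a ≤ a 0 + a 2 := (min_le_right _ _).trans (min_le_left _ _)
  have h3 : e3 a ≤ a 1 + a 2 := (min_le_right _ _).trans (min_le_right _ _)
  fin_cases i <;> fin_cases j <;> simp at h ⊢ <;> linarith

theorem le_e3 {a : Fin 3 → ℝ} {c : ℝ} (h : ∀ i j : Fin 3, i ≠ j → c ≤ a i + a j) : c ≤ e3 a :=
  le_min (h 0 1 (by decide)) (le_min (h 0 2 (by decide)) (h 1 2 (by decide)))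

theorem third {i j k : Fin 3} (hij : i ≠ j) (hik : i ≠ k) (hjk : j ≠ k) (m : Fin 3) :
    m = i ∨ m = j ∨ m = k := by
  fin_cases i <;> fin_cases j <;> fin_cases k <;> fin_cases m <;> simp_all

theorem e3_eq (a : Fin 3 → ℝ) {i j k : Fin 3} (hij : i ≠ j) (hik : i ≠ k) (hjk : j ≠ k)
    (h1 : a i ≤ a k) (h2 : a j ≤ a k) : e3 a = a i + a j := by
  refine le_antisymm (e3_le a hij) (le_e3 fun p q hpq => ?_)
  rcases third hij hik hjk p with rfl | rfl | rfl <;>
    rcases third hij hik hjk q with rfl | rfl | rfl <;>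
      first
        | exact absurd rfl hpq
        | linarith

theorem e3_exists (a : Fin 3 → ℝ) : ∃ i j : Fin 3, i ≠ j ∧ e3 a = a i + a j := by
  unfold e3
  rcases min_choice (a 0 + a 1) (min (a 0 + a 2) (a 1 + a 2)) with h | h
  · exact ⟨0, 1, by decide, h⟩
  · rcases min_choice (a 0 + a 2) (a 1 + a 2) with h' | h'
    · exact ⟨0, 2, by decide, h.trans h'⟩
    · exact ⟨1, 2, by decide, h.trans h'⟩

theorem e3_nonneg {a : Fin 3 → ℝ} (h : ∀ i, 0 ≤ a i) : 0 ≤ e3 a :=
  le_e3 fun i j _ => add_nonneg (h i) (h j)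

theorem e3_continuous : Continuous e3 := by
  unfold e3
  fun_prop

/-- lowering two coordinates -/
theorem e3_minus {a a' : Fin 3 → ℝ} {i j k : Fin 3} (hij : i ≠ j) (hik : i ≠ k) (hjk : j ≠ k)
    (hk : a' k = a k) {di dj Di Dj : ℝ} (hi : a' i = a i - di) (hj : a' j = a j - dj)
    (hdi : 0 ≤ di) (hdj : 0 ≤ dj) (hDi : di ≤ Di) (hDj : dj ≤ Dj) {Vi Vj : Prop}
    (hVi : ¬ Vi → di = 0) (hVj : ¬ Vj → dj = 0)
    (hc : ¬ (Vi ∧ Vj ∧ a i = a j ∧ a k < a i))
    (Hi Hj : Prop) [Decidable Hi] [Decidable Hj]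
    (hHi : (Vi ∧ a j < a i ∧ a k < a i) → Hi) (hHj : (Vj ∧ a i < a j ∧ a k < a j) → Hj) :
    e3 a' ≤ e3 a - di - dj + (if Hi then Di else 0) + (if Hj then Dj else 0) := by
  have pi : 0 ≤ (if Hi then Di else 0) := by split_ifs <;> linarith
  have pj : 0 ≤ (if Hj then Dj else 0) := by split_ifs <;> linarith
  rcases le_or_gt (a i) (a k) with h1 | h1
  · rcases le_or_gt (a j) (a k) with h2 | h2
    · have e := e3_eq a hij hik hjk h1 h2
      have e' := e3_le a' hij
      rw [hi, hj] at e'
      linarith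
    · -- a j is the strict maximum
      have e := e3_eq a hik hij (Ne.symm hjk) (h1.trans h2.le) h2.le
      have e' := e3_le a' hik
      rw [hi, hk] at e'
      by_cases hv : Vj
      · have := hHj ⟨hv, lt_of_le_of_lt h1 h2, h2⟩
        rw [if_pos this] at pj ⊢
        linarith
      · have := hVj hv
        linarith
  · rcases lt_trichotomy (a i) (a j) with h2 | h2 | h2
    · -- a j strict maximum
      have h3 : a k < a j := h1.trans h2
      have e := e3_eq a hik hij (Ne.symm hjk) h2.le h3.le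
      have e' := e3_le a' hik
      rw [hi, hk] at e'
      by_cases hv : Vj
      · have := hHj ⟨hv, h2, h3⟩
        rw [if_pos this] at pj ⊢
        linarith
      · have := hVj hv
        linarith
    · -- tie
      by_cases hv : Vi
      · have hv' : ¬ Vj := fun h => hc ⟨hv, h, h2, h1⟩
        have := hVj hv'
        have e := e3_eq a hik hij (Ne.symm hjk) h2.le (h2 ▸ h1.le)
        have e' := e3_le a' hik
        rw [hi, hk] at e'
        linarith
      · have := hVi hv
        have e := e3_eq a hjk (Ne.symm hij) (Ne.symm hik) h2.ge h1.le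
        have e' := e3_le a' hjk
        rw [hj, hk] at e'
        linarith
    · -- a i strict maximum
      have e := e3_eq a hjk (Ne.symm hij) (Ne.symm hik) h2.le h1.le
      have e' := e3_le a' hjk
      rw [hj, hk] at e'
      by_cases hv : Vi
      · have := hHi ⟨hv, h2, h1⟩
        rw [if_pos this] at pi ⊢
        linarith
      · have := hVi hv
        linarith

/-- raising one coordinate -/
theorem e3_plus {a a' : Fin 3 → ℝ} {i : Fin 3} (ho : ∀ j, j ≠ i → a' j = a j)
    {d D : ℝ} (hi : a' i = a i + d) (hd : 0 ≤ d) (hD : d ≤ D) {V : Prop} (hV : ¬ V → d = 0)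
    (L : Prop) [Decidable L] (hL : (V ∧ ∃ j, j ≠ i ∧ a i < a j) → L) :
    e3 a' ≤ e3 a + (if L then D else 0) := by
  by_cases hv : V
  · by_cases hj : ∃ j, j ≠ i ∧ a i < a j
    · rw [if_pos (hL ⟨hv, hj⟩)]
      obtain ⟨r, s, hrs, he⟩ := e3_exists a
      have h1 := e3_le a' hrs
      have h2 : ∀ m, a' m ≤ a m + (if m = i then d else 0) := by
        intro m
        by_cases hm : m = i
        · subst hm
          simp [hi]
        · simp [hm, ho m hm]
      have h3 : (if r = i then d else 0) + (if s = i then d else 0) ≤ d := by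
        by_cases hr : r = i
        · have : s ≠ i := fun h => hrs (hr.trans h.symm)
          simp [hr, this]
        · simp only [hr, if_false, zero_add]
          split_ifs <;> linarith
      have := h2 r
      have := h2 s
      linarith
    · push Not at hj
      have h0 : 0 ≤ (if L then D else 0) := by split_ifs <;> linarith
      obtain ⟨j, k, hij, hik, hjk⟩ : ∃ j k : Fin 3, i ≠ j ∧ i ≠ k ∧ j ≠ k := by
        fin_cases i
        · exact ⟨1, 2, by decide, by decide, by decide⟩
        · exact ⟨0, 2, by decide, by decide, by decide⟩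
        · exact ⟨0, 1, by decide, by decide, by decide⟩
      have e := e3_eq a hjk (Ne.symm hij) (Ne.symm hik) (hj j (Ne.symm hij)) (hj k (Ne.symm hik))
      have e' := e3_le a' hjk
      rw [ho j (Ne.symm hij), ho k (Ne.symm hik)] at e'
      linarith
  · have hd0 := hV hv
    have h0 : 0 ≤ (if L then D else 0) := by split_ifs <;> linarith
    have : a' = a := by
      funext m
      by_cases hm : m = i
      · subst hm
        rw [hi, hd0, add_zero]
      · exact ho m hm
    rw [this]
    linarith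

end Pool.Agent.Work.MP_7eddf1.GL
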