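import Mathlib

/-!
Box systems and the optimisation problem behind the Gowers-Long bound.
-/

set_option autoImplicit false
open Finset

namespace Pool.Agent.Work.MP_7eddf1.GL

variable {ι : Type*} [Fintype ι]

/-- a system of intervals `[u t, u t + l t] ⊆ [0,1]`, ordered along the relation `R`. -/
structure Feas (R : ι → ι → Prop) (u l : ι → ℝ) : Prop where
  hu : ∀ t, 0 ≤ u t
  hl : ∀ t, 0 ≤ l t
  h1 : ∀ t, u t + l t ≤ 1
  hR : ∀ s t, R s t → u s + l s ≤ u t

theorem Feas.convex {R : ι → ι → Prop} {u l u' l' : ι → ℝ} (h : Feas R u l) (h' : Feas R u' l')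
    {ε : ℝ} (h0 : 0 ≤ ε) (h1 : ε ≤ 1) :
    Feas R (fun t => (1 - ε) * u t + ε * u' t) (fun t => (1 - ε) * l t + ε * l' t) := by
  have h2 : 0 ≤ 1 - ε := by linarith
  refine ⟨fun t => ?_, fun t => ?_, fun t => ?_, fun s t hst => ?_⟩
  · exact add_nonneg (mul_nonneg h2 (h.hu t)) (mul_nonneg h0 (h'.hu t))
  · exact add_nonneg (mul_nonneg h2 (h.hl t)) (mul_nonneg h0 (h'.hl t))
  · have a := mul_le_mul_of_nonneg_left (h.h1 t) h2
    have b := mul_le_mul_of_nonneg_left (h'.h1 t) h0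
    show (1 - ε) * u t + ε * u' t + ((1 - ε) * l t + ε * l' t) ≤ 1
    linarith
  · have a := mul_le_mul_of_nonneg_left (h.hR s t hst) h2
    have b := mul_le_mul_of_nonneg_left (h'.hR s t hst) h0
    show (1 - ε) * u s + ε * u' s + ((1 - ε) * l s + ε * l' s) ≤ (1 - ε) * u t + ε * u' t
    linarith

/-- the objective: the sum of the square roots of the volumes of the boxes. -/
noncomputable def J (l : Fin 3 → ι → ℝ) : ℝ := ∑ t, Real.sqrt (∏ i, l i t)

theorem exists_max (R : Fin 3 → ι → ι → Prop) :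
    ∃ u l : Fin 3 → ι → ℝ, (∀ i, Feas (R i) (u i) (l i)) ∧
      ∀ u' l' : Fin 3 → ι → ℝ, (∀ i, Feas (R i) (u' i) (l' i)) → J l' ≤ J l := by
  classical
  let K : Set ((Fin 3 → ι → ℝ) × (Fin 3 → ι → ℝ)) := {B | ∀ i, Feas (R i) (B.1 i) (B.2 i)}
  have hsub : K ⊆ Set.Icc (0 : (Fin 3 → ι → ℝ) × (Fin 3 → ι → ℝ)) 1 := by
    intro B hB
    refine ⟨⟨fun i t => (hB i).hu t, fun i t => (hB i).hl t⟩, ⟨fun i t => ?_, fun i t => ?_⟩⟩
    · have := (hB i).h1 t
      have := (hB i).hl t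
      show B.1 i t ≤ 1
      linarith
    · have := (hB i).h1 t
      have := (hB i).hu t
      show B.2 i t ≤ 1
      linarith
  have hK : K = (⋂ i : Fin 3, ⋂ t : ι, {B : (Fin 3 → ι → ℝ) × (Fin 3 → ι → ℝ) | 0 ≤ B.1 i t}) ∩
      (⋂ i : Fin 3, ⋂ t : ι, {B | 0 ≤ B.2 i t}) ∩
      (⋂ i : Fin 3, ⋂ t : ι, {B | B.1 i t + B.2 i t ≤ 1}) ∩
      (⋂ i : Fin 3, ⋂ s : ι, ⋂ t : ι, ⋂ _ : R i s t, {B | B.1 i s + B.2 i s ≤ B.1 i t}) := by
    ext B
    simp only [Set.mem_inter_iff, Set.mem_iInter, Set.mem_setOf_eq, K]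
    constructor
    · intro h
      exact ⟨⟨⟨fun i t => (h i).hu t, fun i t => (h i).hl t⟩, fun i t => (h i).h1 t⟩,
        fun i s t hst => (h i).hR s t hst⟩
    · rintro ⟨⟨⟨a, b⟩, c⟩, d⟩ i
      exact ⟨a i, b i, c i, d i⟩
  have hclosed : IsClosed K := by
    rw [hK]
    refine IsClosed.inter (IsClosed.inter (IsClosed.inter ?_ ?_) ?_) ?_
    · exact isClosed_iInter fun i => isClosed_iInter fun t =>
        isClosed_le continuous_const (by fun_prop)
    · exact isClosed_iInter fun i => isClosed_iInter fun t =>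
        isClosed_le continuous_const (by fun_prop)
    · exact isClosed_iInter fun i => isClosed_iInter fun t =>
        isClosed_le (by fun_prop) continuous_const
    · exact isClosed_iInter fun i => isClosed_iInter fun s => isClosed_iInter fun t =>
        isClosed_iInter fun _ => isClosed_le (by fun_prop) (by fun_prop)
  have hcomp : IsCompact K := isCompact_Icc.of_isClosed_subset hclosed hsub
  have hne : K.Nonempty := ⟨(0, 0), fun i => ⟨fun t => le_refl _, fun t => le_refl _,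
    fun t => by simp, fun s t _ => by simp⟩⟩
  have hcont : ContinuousOn (fun B : (Fin 3 → ι → ℝ) × (Fin 3 → ι → ℝ) => J B.2) K := by
    apply Continuous.continuousOn
    unfold J
    fun_prop
  obtain ⟨B, hB, hmax⟩ := hcomp.exists_isMaxOn hne hcont
  refine ⟨B.1, B.2, hB, fun u' l' h' => ?_⟩
  exact hmax (show (u', l') ∈ K from h')

end Pool.Agent.Work.MP_7eddf1.GL
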