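import Pool.Agent.Work.MP_7eddf1_co.GL.Bal
import Pool.Agent.Work.MP_7eddf1_co.GL.Frac

set_option autoImplicit false
open Finset Filter Topology

namespace Pool.Agent.Work.MP_7eddf1.GL

variable {ι : Type*} [Fintype ι]

/-- the proportions of the box `t` below the point `x` -/
noncomputable def fr (u l : Fin 3 → ι → ℝ) (x : Fin 3 → ℝ) (t : ι) (i : Fin 3) : ℝ :=
  Fr (u i t) (l i t) (x i)

/-- the main function. -/
noncomputable def EE (u l : Fin 3 → ι → ℝ) (p : ι → ℝ) (x : Fin 3 → ℝ) : ℝ :=
  ∑ t, p t * e3 (fr u l x t)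

def InH (u l : Fin 3 → ι → ℝ) (x : Fin 3 → ℝ) (t : ι) (i : Fin 3) : Prop :=
  (u i t < x i ∧ x i ≤ u i t + l i t) ∧ ∀ j, j ≠ i → fr u l x t j < fr u l x t i

def InL (u l : Fin 3 → ι → ℝ) (x : Fin 3 → ℝ) (t : ι) (i : Fin 3) : Prop :=
  (u i t ≤ x i ∧ x i < u i t + l i t) ∧ ∃ j, j ≠ i ∧ fr u l x t i < fr u l x t j

def Wall (R : Fin 3 → ι → ι → Prop) (u l : Fin 3 → ι → ℝ) (p : ι → ℝ) (x : Fin 3 → ℝ)
    (i : Fin 3) : Prop :=
  ∃ a b, 0 < p a ∧ 0 < p b ∧ R i a b ∧ InH u l x a i ∧ InL u l x b i

def Corner (u l : Fin 3 → ι → ℝ) (p : ι → ℝ) (x : Fin 3 → ℝ) (i j : Fin 3) : Prop :=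
  ∃ t, 0 < p t ∧ (u i t < x i ∧ x i ≤ u i t + l i t) ∧ (u j t < x j ∧ x j ≤ u j t + l j t) ∧
    fr u l x t i = fr u l x t j ∧ ∀ k, k ≠ i → k ≠ j → fr u l x t k < fr u l x t i

open Classical in
noncomputable def hS (u l z : Fin 3 → ι → ℝ) (p : ι → ℝ) (x : Fin 3 → ℝ) (i : Fin 3) : ℝ :=
  ∑ t, if 0 < p t ∧ InH u l x t i then z i t else 0

open Classical in
noncomputable def lS (u l z : Fin 3 → ι → ℝ) (p : ι → ℝ) (x : Fin 3 → ℝ) (i : Fin 3) : ℝ :=
  ∑ t, if 0 < p t ∧ InL u l x t i then z i t else 0

variable {R : Fin 3 → ι → ι → Prop} {u l z : Fin 3 → ι → ℝ} {p : ι → ℝ}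

theorem Bal.p_mul_Fr (B : Bal R u l z p) (i : Fin 3) (t : ι) (x : ℝ) :
    p t * Fr (u i t) (l i t) x = z i t * wd (u i t) (l i t) x := by
  by_cases h : l i t = 0
  · have h1 : p t = 0 := by rw [← B.zl i t, h, mul_zero]
    have h2 : wd (u i t) (l i t) x = 0 := by
      unfold wd
      rw [h, add_zero, sub_self]
    rw [h1, h2]
    ring
  · unfold Fr
    rw [← B.zl i t]
    field_simp

theorem Bal.uniform' (B : Bal R u l z p) (i : Fin 3) {x : ℝ} (hx0 : 0 ≤ x) (hx1 : x ≤ 1) :
    ∑ t, p t * Fr (u i t) (l i t) x = x :=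
  (sum_congr rfl fun t _ => B.p_mul_Fr i t x).trans (B.uniform i hx0 hx1)

theorem Bal.wall_sum (B : Bal R u l z p) {i : Fin 3}
    (htr : ∀ r s t, R i r s → R i s t → R i r t) {x : Fin 3 → ℝ}
    (hw : ¬ Wall R u l p x i) : hS u l z p x i + lS u l z p x i ≤ 1 := by
  classical
  have hdis : ∀ t, InH u l x t i → ¬ InL u l x t i := by
    rintro t ⟨_, h1⟩ ⟨_, j, hj, h2⟩
    have := h1 j hj
    linarith
  set C : Finset ι := univ.filter (fun t => 0 < p t ∧ (InH u l x t i ∨ InL u l x t i)) with hC
  have h1 : hS u l z p x i + lS u l z p x i = ∑ t ∈ C, z i t := by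
    unfold hS lS
    rw [← Finset.sum_add_distrib, hC, Finset.sum_filter]
    refine sum_congr rfl fun t _ => ?_
    by_cases hp : 0 < p t
    · by_cases hH : InH u l x t i
      · have := hdis t hH
        simp [hp, hH, this]
      · by_cases hL : InL u l x t i
        · simp [hp, hH, hL]
        · simp [hH, hL]
    · simp [hp]
  rw [h1]
  refine B.antichain i htr C fun s hs t ht hst => ?_
  rw [hC, Finset.mem_filter] at hs ht
  have hR := (B.feas i).hR s t hst
  rcases hs.2.2 with hsH | hsL
  · rcases ht.2.2 with htH | htL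
    · have := hsH.1.2
      have := htH.1.1
      linarith
    · exact hw ⟨s, t, hs.2.1, ht.2.1, hst, hsH, htL⟩
  · rcases ht.2.2 with htH | htL
    · have := hsL.1.2
      have := htH.1.1
      linarith
    · have := hsL.1.2
      have := htL.1.1
      linarith

/-- moving down in two coordinates. -/
theorem Bal.minus (B : Bal R u l z p) {x : Fin 3 → ℝ} (hx0 : ∀ i, 0 < x i) (hx1 : ∀ i, x i < 1)
    {i j k : Fin 3} (hij : i ≠ j) (hik : i ≠ k) (hjk : j ≠ k) (hc : ¬ Corner u l p x i j) :
    ∀ᶠ ε in 𝓝[>] (0 : ℝ),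
      EE u l p (fun m => if m = k then x m else (1 - ε) * x m) ≤
        EE u l p x - ε * (x i * (1 - hS u l z p x i)) - ε * (x j * (1 - hS u l z p x j)) := by
  classical
  have ev : ∀ᶠ ε in 𝓝[>] (0 : ℝ), ∀ t : ι, 0 < p t →
      (¬ (u i t < x i ∧ x i ≤ u i t + l i t) →
        Fr (u i t) (l i t) ((1 - ε) * x i) = Fr (u i t) (l i t) (x i)) ∧
      (¬ (u j t < x j ∧ x j ≤ u j t + l j t) →
        Fr (u j t) (l j t) ((1 - ε) * x j) = Fr (u j t) (l j t) (x j)) := by
    rw [Filter.eventually_all]
    intro t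
    by_cases hp : 0 < p t
    · filter_upwards [ev_minus (u := u i t) (B.lpos i t hp) (hx0 i).le,
        ev_minus (u := u j t) (B.lpos j t hp) (hx0 j).le] with ε h1 h2 _
      exact ⟨h1, h2⟩
    · exact Eventually.of_forall fun ε h => absurd h hp
  filter_upwards [ev, Ioo_mem_nhdsGT (zero_lt_one (α := ℝ))] with ε hev hε
  have hε0 : 0 < ε := hε.1
  have hε1 : ε < 1 := hε.2
  set x' : Fin 3 → ℝ := fun m => if m = k then x m else (1 - ε) * x m with hx'
  have ei : x' i = (1 - ε) * x i := by simp [hx', hik]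
  have ej : x' j = (1 - ε) * x j := by simp [hx', hjk]
  have ek : x' k = x k := by simp [hx']
  have hle : ∀ m, (1 - ε) * x m ≤ x m := fun m => by nlinarith [hx0 m]
  have term : ∀ t, p t * e3 (fr u l x' t) ≤ p t * e3 (fr u l x t)
      - (p t * Fr (u i t) (l i t) (x i) - p t * Fr (u i t) (l i t) ((1 - ε) * x i))
      - (p t * Fr (u j t) (l j t) (x j) - p t * Fr (u j t) (l j t) ((1 - ε) * x j))
      + ε * x i * (if 0 < p t ∧ InH u l x t i then z i t else 0)
      + ε * x j * (if 0 < p t ∧ InH u l x t j then z j t else 0) := by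
    intro t
    by_cases hp : 0 < p t
    · have hli := B.lpos i t hp
      have hlj := B.lpos j t hp
      have hdi : 0 ≤ Fr (u i t) (l i t) (x i) - Fr (u i t) (l i t) ((1 - ε) * x i) := by
        unfold Fr
        rw [← sub_div]
        exact div_nonneg (sub_nonneg.2 (wd_mono hli.le (hle i))) hli.le
      have hdj : 0 ≤ Fr (u j t) (l j t) (x j) - Fr (u j t) (l j t) ((1 - ε) * x j) := by
        unfold Fr
        rw [← sub_div]
        exact div_nonneg (sub_nonneg.2 (wd_mono hlj.le (hle j))) hlj.le
      have hDi : Fr (u i t) (l i t) (x i) - Fr (u i t) (l i t) ((1 - ε) * x i) ≤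
          ε * x i / l i t := by
        unfold Fr
        rw [← sub_div]
        refine div_le_div_of_nonneg_right ?_ hli.le
        have := wd_lip (u := u i t) hli.le (hle i)
        linarith
      have hDj : Fr (u j t) (l j t) (x j) - Fr (u j t) (l j t) ((1 - ε) * x j) ≤
          ε * x j / l j t := by
        unfold Fr
        rw [← sub_div]
        refine div_le_div_of_nonneg_right ?_ hlj.le
        have := wd_lip (u := u j t) hlj.le (hle j)
        linarith
      have key := e3_minus (a := fr u l x t) (a' := fr u l x' t) hij hik hjk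
        (by simp only [fr, ek]) (di := Fr (u i t) (l i t) (x i) - Fr (u i t) (l i t) ((1 - ε) * x i))
        (dj := Fr (u j t) (l j t) (x j) - Fr (u j t) (l j t) ((1 - ε) * x j))
        (by simp only [fr, ei]; ring) (by simp only [fr, ej]; ring) hdi hdj hDi hDj
        (Vi := u i t < x i ∧ x i ≤ u i t + l i t) (Vj := u j t < x j ∧ x j ≤ u j t + l j t)
        (fun h => by rw [(hev t hp).1 h, sub_self]) (fun h => by rw [(hev t hp).2 h, sub_self])
        (by
          rintro ⟨h1, h2, h3, h4⟩
          refine hc ⟨t, hp, h1, h2, h3, fun m hmi hmj => ?_⟩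
          rcases third hij hik hjk m with rfl | rfl | rfl
          · exact absurd rfl hmi
          · exact absurd rfl hmj
          · exact h4)
        (InH u l x t i) (InH u l x t j)
        (by
          rintro ⟨h1, h2, h3⟩
          refine ⟨h1, fun m hm => ?_⟩
          rcases third hij hik hjk m with rfl | rfl | rfl
          · exact absurd rfl hm
          · exact h2
          · exact h3)
        (by
          rintro ⟨h1, h2, h3⟩
          refine ⟨h1, fun m hm => ?_⟩
          rcases third hij hik hjk m with rfl | rfl | rfl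
          · exact h2
          · exact absurd rfl hm
          · exact h3)
      have k2 := mul_le_mul_of_nonneg_left key hp.le
      have e1 : p t * (if InH u l x t i then ε * x i / l i t else 0) =
          ε * x i * (if 0 < p t ∧ InH u l x t i then z i t else 0) := by
        by_cases hH : InH u l x t i
        · simp only [hH, hp, and_self, if_true]
          rw [← B.zl i t]
          field_simp
        · simp [hH]
      have e2 : p t * (if InH u l x t j then ε * x j / l j t else 0) =
          ε * x j * (if 0 < p t ∧ InH u l x t j then z j t else 0) := by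
        by_cases hH : InH u l x t j
        · simp only [hH, hp, and_self, if_true]
          rw [← B.zl j t]
          field_simp
        · simp [hH]
      rw [← e1, ← e2]
      refine k2.trans (le_of_eq ?_)
      ring
    · have h0 : p t = 0 := le_antisymm (not_lt.1 hp) (B.p0 t)
      simp [h0]
  have S := Finset.sum_le_sum fun t (_ : t ∈ (univ : Finset ι)) => term t
  have u1 := B.uniform' i (hx0 i).le (hx1 i).le
  have u2 := B.uniform' j (hx0 j).le (hx1 j).le
  have u3 := B.uniform' i (x := (1 - ε) * x i) (mul_nonneg (by linarith) (hx0 i).le)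
    ((hle i).trans (hx1 i).le)
  have u4 := B.uniform' j (x := (1 - ε) * x j) (mul_nonneg (by linarith) (hx0 j).le)
    ((hle j).trans (hx1 j).le)
  rw [Finset.sum_add_distrib, Finset.sum_add_distrib, Finset.sum_sub_distrib,
    Finset.sum_sub_distrib, Finset.sum_sub_distrib, Finset.sum_sub_distrib, u1, u2, u3, u4,
    ← Finset.mul_sum, ← Finset.mul_sum] at S
  have eh1 : ∑ t, (if 0 < p t ∧ InH u l x t i then z i t else 0) = hS u l z p x i := rfl
  have eh2 : ∑ t, (if 0 < p t ∧ InH u l x t j then z j t else 0) = hS u l z p x j := rfl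
  rw [eh1, eh2] at S
  show ∑ t, p t * e3 (fr u l x' t) ≤ ∑ t, p t * e3 (fr u l x t) - _ - _
  linarith

/-- moving up in one coordinate. -/
theorem Bal.plus (B : Bal R u l z p) {x : Fin 3 → ℝ} (i : Fin 3) :
    ∀ᶠ ε in 𝓝[>] (0 : ℝ),
      EE u l p (fun m => if m = i then x m + ε else x m) ≤
        EE u l p x + ε * lS u l z p x i := by
  classical
  have ev : ∀ᶠ ε in 𝓝[>] (0 : ℝ), ∀ t : ι, 0 < p t →
      (¬ (u i t ≤ x i ∧ x i < u i t + l i t) →
        Fr (u i t) (l i t) (x i + ε) = Fr (u i t) (l i t) (x i)) := by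
    rw [Filter.eventually_all]
    intro t
    by_cases hp : 0 < p t
    · filter_upwards [ev_plus (u := u i t) (x := x i) (B.lpos i t hp)] with ε h1 _
      exact h1
    · exact Eventually.of_forall fun ε h => absurd h hp
  filter_upwards [ev, self_mem_nhdsWithin] with ε hev hε
  have hε0 : 0 < ε := hε
  set x' : Fin 3 → ℝ := fun m => if m = i then x m + ε else x m with hx'
  have ei : x' i = x i + ε := by simp [hx']
  have eo : ∀ j, j ≠ i → x' j = x j := fun j hj => by simp [hx', hj]
  have term : ∀ t, p t * e3 (fr u l x' t) ≤ p t * e3 (fr u l x t)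
      + ε * (if 0 < p t ∧ InL u l x t i then z i t else 0) := by
    intro t
    by_cases hp : 0 < p t
    · have hli := B.lpos i t hp
      have hdi : 0 ≤ Fr (u i t) (l i t) (x i + ε) - Fr (u i t) (l i t) (x i) := by
        unfold Fr
        rw [← sub_div]
        exact div_nonneg (sub_nonneg.2 (wd_mono hli.le (by linarith))) hli.le
      have hDi : Fr (u i t) (l i t) (x i + ε) - Fr (u i t) (l i t) (x i) ≤ ε / l i t := by
        unfold Fr
        rw [← sub_div]
        refine div_le_div_of_nonneg_right ?_ hli.le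
        have := wd_lip (u := u i t) hli.le (show x i ≤ x i + ε by linarith)
        linarith
      have key := e3_plus (a := fr u l x t) (a' := fr u l x' t) (i := i)
        (fun j hj => by simp only [fr, eo j hj])
        (d := Fr (u i t) (l i t) (x i + ε) - Fr (u i t) (l i t) (x i))
        (by simp only [fr, ei]; ring) hdi hDi
        (V := u i t ≤ x i ∧ x i < u i t + l i t)
        (fun h => by rw [hev t hp h, sub_self]) (InL u l x t i)
        (by
          rintro ⟨h1, h2⟩
          exact ⟨h1, h2⟩)
      have k2 := mul_le_mul_of_nonneg_left key hp.le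
      have e1 : p t * (if InL u l x t i then ε / l i t else 0) =
          ε * (if 0 < p t ∧ InL u l x t i then z i t else 0) := by
        by_cases hH : InL u l x t i
        · simp only [hH, hp, and_self, if_true]
          rw [← B.zl i t]
          field_simp
        · simp [hH]
      rw [← e1]
      refine k2.trans (le_of_eq ?_)
      ring
    · have h0 : p t = 0 := le_antisymm (not_lt.1 hp) (B.p0 t)
      simp [h0]
  have S := Finset.sum_le_sum fun t (_ : t ∈ (univ : Finset ι)) => term t
  rw [Finset.sum_add_distrib, ← Finset.mul_sum] at S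
  exact S

end Pool.Agent.Work.MP_7eddf1.GL
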