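import Pool.Agent.Work.MP_7eddf1_co.GL.Max

set_option autoImplicit false
open Finset

namespace Pool.Agent.Work.MP_7eddf1.GL

theorem sqrt_one_add_ge {a : ℝ} (ha : -1 ≤ a) : 1 + a / 2 - a ^ 2 / 2 ≤ Real.sqrt (1 + a) := by
  obtain ⟨s, hs⟩ : ∃ s, s = Real.sqrt (1 + a) := ⟨_, rfl⟩
  have h0 : 0 ≤ s := hs ▸ Real.sqrt_nonneg _
  have h1 : s ^ 2 = 1 + a := by rw [hs]; exact Real.sq_sqrt (by linarith)
  have h2 : a = s ^ 2 - 1 := by linarith
  rw [← hs, h2]
  nlinarith [mul_nonneg (sq_nonneg (s - 1)) (mul_nonneg h0 (by linarith : (0 : ℝ) ≤ s + 2))]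

variable {ι : Type*} [Fintype ι]

/-- first order condition at a maximiser -/
theorem variational {R : Fin 3 → ι → ι → Prop} {u l : Fin 3 → ι → ℝ}
    (hf : ∀ i, Feas (R i) (u i) (l i))
    (hmax : ∀ u' l' : Fin 3 → ι → ℝ, (∀ i, Feas (R i) (u' i) (l' i)) → J l' ≤ J l)
    (i : Fin 3) (u' l' : ι → ℝ) (h' : Feas (R i) u' l') :
    ∑ t, Real.sqrt (∏ j, l j t) * (l' t / l i t) ≤ J l := by
  classical
  set q : ι → ℝ := fun t => Real.sqrt (∏ j, l j t) with hq
  set c : ι → ℝ := fun t => l' t / l i t - 1 with hc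
  have hq0 : ∀ t, 0 ≤ q t := fun t => Real.sqrt_nonneg _
  have key : ∀ ε : ℝ, 0 < ε → ε ≤ 1 → ∑ t, q t * c t ≤ ε * ∑ t, q t * (c t) ^ 2 := by
    intro ε he0 he1
    set L : ι → ℝ := fun t => (1 - ε) * l i t + ε * l' t with hL
    set U : ι → ℝ := fun t => (1 - ε) * u i t + ε * u' t with hU
    have hfe : ∀ j, Feas (R j) (Function.update u i U j) (Function.update l i L j) := by
      intro j
      by_cases hj : j = i
      · subst hj
        simp only [Function.update_self]
        exact (hf j).convex h' he0.le he1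
      · simp only [Function.update_of_ne hj]
        exact hf j
    have h1 := hmax _ _ hfe
    have h2 : ∑ t, q t * (1 + (ε * c t) / 2 - (ε * c t) ^ 2 / 2) ≤ J (Function.update l i L) := by
      unfold J
      refine sum_le_sum fun t _ => ?_
      rcases (hq0 t).eq_or_lt with h0 | h0
      · rw [← h0]
        simp
      · have hpos : 0 < ∏ j, l j t := by
          by_contra hcon
          have : q t = 0 := Real.sqrt_eq_zero'.2 (not_lt.1 hcon)
          linarith
        have hli : l i t ≠ 0 := by
          intro h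
          rw [Finset.prod_eq_zero (Finset.mem_univ i) h] at hpos
          exact lt_irrefl _ hpos
        have hli0 : 0 < l i t := lt_of_le_of_ne ((hf i).hl t) (Ne.symm hli)
        have hprod : ∏ j, (Function.update l i L) j t = (∏ j, l j t) * (1 + ε * c t) := by
          have e1 : ∏ j, (Function.update l i L) j t = L t * ∏ j ∈ univ.erase i, l j t := by
            rw [← Finset.mul_prod_erase univ _ (Finset.mem_univ i)]
            congr 1
            · simp
            · refine prod_congr rfl fun j hj => ?_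
              rw [Function.update_of_ne (Finset.ne_of_mem_erase hj)]
          have e2 : ∏ j, l j t = l i t * ∏ j ∈ univ.erase i, l j t :=
            (Finset.mul_prod_erase univ _ (Finset.mem_univ i)).symm
          rw [e1, e2]
          have e3 : L t = l i t * (1 + ε * c t) := by
            simp only [hL, hc]
            field_simp
            ring
          rw [e3]
          ring
        rw [hprod, Real.sqrt_mul hpos.le]
        refine mul_le_mul_of_nonneg_left ?_ (hq0 t)
        refine sqrt_one_add_ge ?_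
        have : -1 ≤ c t := by
          have : 0 ≤ l' t / l i t := div_nonneg (h'.hl t) hli0.le
          simp only [hc]
          linarith
        nlinarith
    have h3 : ∑ t, q t * (1 + (ε * c t) / 2 - (ε * c t) ^ 2 / 2) ≤ ∑ t, q t := h2.trans h1
    have h4 : ∑ t, q t * (1 + (ε * c t) / 2 - (ε * c t) ^ 2 / 2) =
        ∑ t, q t + ε / 2 * ∑ t, q t * c t - ε ^ 2 / 2 * ∑ t, q t * (c t) ^ 2 := by
      rw [Finset.mul_sum, Finset.mul_sum, ← Finset.sum_add_distrib, ← Finset.sum_sub_distrib]
      refine sum_congr rfl fun t _ => ?_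
      ring
    rw [h4] at h3
    have h5 : ε / 2 * ∑ t, q t * c t ≤ ε / 2 * (ε * ∑ t, q t * (c t) ^ 2) := by nlinarith
    exact le_of_mul_le_mul_left h5 (by linarith)
  have hS2 : 0 ≤ ∑ t, q t * (c t) ^ 2 :=
    sum_nonneg fun t _ => mul_nonneg (hq0 t) (sq_nonneg _)
  have hS1 : ∑ t, q t * c t ≤ 0 := by
    by_contra hcon
    push Not at hcon
    set S1 := ∑ t, q t * c t
    set S2 := ∑ t, q t * (c t) ^ 2
    have hε : 0 < min 1 (S1 / (2 * (S2 + 1))) := lt_min one_pos (div_pos hcon (by linarith))
    have h1 := key _ hε (min_le_left _ _)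
    have h2 : min 1 (S1 / (2 * (S2 + 1))) * S2 ≤ S1 / (2 * (S2 + 1)) * S2 :=
      mul_le_mul_of_nonneg_right (min_le_right _ _) hS2
    have h3 : S1 / (2 * (S2 + 1)) * S2 < S1 := by
      rw [div_mul_eq_mul_div, div_lt_iff₀ (by linarith)]
      nlinarith
    linarith
  have : ∑ t, q t * (l' t / l i t) = ∑ t, q t * c t + ∑ t, q t := by
    rw [← Finset.sum_add_distrib]
    refine sum_congr rfl fun t _ => ?_
    simp only [hc]
    ring
  rw [this]
  have : J l = ∑ t, q t := rfl
  linarith

end Pool.Agent.Work.MP_7eddf1.GL
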